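import Pool.Agent.Run7.h810.DF.Union

/-!
MP_e7d22a_nt: for almost every choice of the parameters the union of TWO rotated and translated
copies of the triangular lattice is a dense forest; one copy never is.
-/

namespace Pool.Agent.Results.MP_e7d22a_nt.TwoCopiesSuffice

open Pool.Agent.Run7.h810.DF MeasureTheory

/-- `Y` is a dense forest: there is `V : (0,1) → (0,∞)` such that every line segment of length
`V(ε)` contains a point at distance at most `ε` from `Y`. The segment is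
`{p + t u : 0 ≤ t ≤ V(ε)}`, `|u| = 1`. -/
def IsDenseForest (Y : Set ℂ) : Prop :=
  ∃ V : ℝ → ℝ, ∀ ε : ℝ, 0 < ε → ε < 1 → 0 < V ε ∧
    ∀ p u : ℂ, ‖u‖ = 1 → ∃ t : ℝ, 0 ≤ t ∧ t ≤ V ε ∧ ∃ y ∈ Y, ‖p + t * u - y‖ ≤ ε

/-- For Lebesgue-almost every `(θ_1,θ_2,x_1,x_2)` in `(ℝ/2πℤ)^2 × (ℝ^2)^2` the set
`TBG(2,(x_i),(θ_i))` is a dense forest. -/
theorem result :
    ∀ᵐ q : (Fin 2 → AddCircle (2 * Real.pi)) × (Fin 2 → ℂ), IsDenseForest (TBG 2 q.2 q.1) := by
  have main : ∀ θ : Fin 2 → AddCircle (2 * Real.pi), Good (θ 0) (θ 1) →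
      ∀ x : Fin 2 → ℂ, IsDenseForest (TBG 2 x θ) := by
    intro θ hθ x
    have h := near_TBG θ hθ
    choose! T hT h using h
    refine ⟨T, fun ε hε _ => ⟨hT ε hε, ?_⟩⟩
    intro p u hu
    obtain ⟨t, ht0, ht1, y, hy, hd⟩ := h ε hε x p u hu
    exact ⟨t, ht0, ht1, y, hy, hd.le⟩
  have h1 := (Measure.quasiMeasurePreserving_fst
    (μ := (volume : Measure (Fin 2 → AddCircle (2 * Real.pi))))
    (ν := (volume : Measure (Fin 2 → ℂ)))).ae ae_good
  rw [Measure.volume_eq_prod]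
  filter_upwards [h1] with q hq
  exact main q.1 hq q.2

end Pool.Agent.Results.MP_e7d22a_nt.TwoCopiesSuffice
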